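import Pool.Agent.W680.WH.Stm

/-!
# Project WHH: positivity is multiplicative
-/

set_option autoImplicit false

open scoped ComplexConjugate InnerProductSpace
open ContinuousLinearMap Filter
open Pool.Agent.W680.WH

namespace Pool.Agent.W73.WHH

/-- the element `-1` of the circle -/
noncomputable def kap : Circle := Circle.exp Real.pi

lemma kap_coe : ((kap : Circle) : ℂ) = -1 := by
  unfold kap
  rw [Circle.coe_exp, Complex.exp_pi_mul_I]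

lemma e0_R (hOPR : S_OPR) (k : Circle) : R k (eb 0) = eb 0 := by
  have h := hOPR.1 k 0
  simpa using h

lemma inn_co (hOPC : S_OPC) (f : E) : ⟪eb 0, f⟫_ℂ = co f 0 := by
  obtain ⟨-, -, -, -, -, -, -, -, -, h, -⟩ := hOPC
  rw [h 0 f, om_zero]
  simp

lemma inn_R (hOPR : S_OPR) (hOPC : S_OPC) (k : Circle) (f : E) :
    ⟪eb 0, R k f⟫_ℂ = ⟪eb 0, f⟫_ℂ := by
  rw [inn_co hOPC, inn_co hOPC]
  obtain ⟨-, -, -, -, -, -, h⟩ := hOPR
  rw [h k f 0]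
  simp

/-- the adjoint of the lift of a hyperbolic element -/
lemma adj_eq (hL1 : ∀ k : Circle, ∀ φ : Mob, φ.c = k → φ.a = 0 → Lift φ (R k⁻¹) 0)
    (hLUN : S_LUN) (hLMU : S_LMU) (hOPR : S_OPR) (hOPC : S_OPC) (r : ℝ) (hr0 : 0 ≤ r)
    (hr1 : r < 1) (A : E →L[ℂ] E)
    (hA : ∀ ψ : Mob, ψ.c = 1 → ψ.a = r → ∃ d', Lift ψ A d') (g0 : ℝ) (hg0 : 0 < g0)
    (hco : co (A (eb 0)) 0 = (g0 : ℂ)) : adjoint A = R kap⁻¹ * (A * R kap⁻¹) := by
  have hrn : ‖(r : ℂ)‖ < 1 := by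
    rw [Complex.norm_real, Real.norm_of_nonneg hr0]; exact hr1
  obtain ⟨hM1, hM2⟩ := hLMU
  let N : Mob := ⟨(kap : ℂ), 0, Circle.norm_coe _, by simp⟩
  let rho : Mob := ⟨1, (r : ℂ), by simp, hrn⟩
  let rho' : Mob := ⟨1, -(r : ℂ), by simp, by rw [norm_neg]; exact hrn⟩
  let sig : Mob := ⟨-1, -(r : ℂ), by simp, by rw [norm_neg]; exact hrn⟩
  have hN : ∀ z : ℂ, N.act z = -z := by
    intro z
    simp [N, Mob.act, kap_coe]
  have hrho : ∀ z : ℂ, rho.act z = (z - r) / (1 - r * z) := by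
    intro z
    simp [rho, Mob.act]
  have hrho' : ∀ z : ℂ, rho'.act z = (z + r) / (1 + r * z) := by
    intro z
    simp [rho', Mob.act]
  have hsig : ∀ z : ℂ, sig.act z = -((z + r) / (1 + r * z)) := by
    intro z
    simp [sig, Mob.act]
  obtain ⟨d1, hd1⟩ := hA rho rfl rfl
  have hLN : Lift N (R kap⁻¹) 0 := hL1 kap N rfl rfl
  have hs : Lift sig (A * R kap⁻¹) _ := hM1 rho N sig A d1 (R kap⁻¹) 0 (by
    intro z _
    rw [hN, hrho, hsig]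
    have : (-z - (r : ℂ)) = -(z + r) := by ring
    rw [this, neg_div]
    congr 2
    ring) hd1 hLN
  have hs2 : Lift rho' (R kap⁻¹ * (A * R kap⁻¹)) _ := hM1 N sig rho' _ _ _ _ (by
    intro z _
    rw [hsig, hN, hrho', neg_neg]) hLN hs
  have hs3 : Lift rho' (adjoint A) _ := hM2 rho rho' A d1 (by
    intro z hz
    rw [hrho', hrho]
    have h1 : (1 : ℂ) + r * z ≠ 0 := by
      intro h
      have h2 : ‖(r : ℂ) * z‖ = 1 := by
        have h3 : (r : ℂ) * z = -1 := by linear_combination h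
        rw [h3]; simp
      rw [norm_mul] at h2
      nlinarith [norm_nonneg z, norm_nonneg (r : ℂ)]
    have h4 : (1 : ℂ) - (r : ℂ) ^ 2 ≠ 0 := by
      have h5 : (1 : ℝ) - r ^ 2 ≠ 0 := by nlinarith
      exact_mod_cast h5
    have h6 : (z + r) / (1 + r * z) - r = z * (1 - (r : ℂ) ^ 2) / (1 + r * z) := by
      rw [eq_div_iff h1, sub_mul, div_mul_cancel₀ _ h1]
      ring
    have h7 : 1 - r * ((z + r) / (1 + r * z)) = (1 - (r : ℂ) ^ 2) / (1 + r * z) := by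
      rw [eq_div_iff h1, sub_mul, mul_assoc, div_mul_cancel₀ _ h1]
      ring
    rw [h6, h7, div_div_div_cancel_right₀ h1, mul_div_assoc, div_self h4, mul_one]) hd1
  refine (hLUN rho' _ _ _ _ hs3 hs2).2.2 ?_ ?_
  · show 0 < (⟪eb 0, adjoint A (eb 0)⟫_ℂ).re
    rw [adjoint_inner_right, ← inner_conj_symm, inn_co hOPC, hco]
    simpa using hg0
  · show 0 < (⟪eb 0, R kap⁻¹ (A (R kap⁻¹ (eb 0)))⟫_ℂ).re
    rw [inn_R hOPR hOPC, e0_R hOPR, inn_co hOPC, hco]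
    simpa using hg0

/-- WHH-POS -/
theorem pos_proof (hLEX : S_LEX) (hLUN : S_LUN) (hLMU : S_LMU) (hSGN : S_SGN) (hMG : S_MOBG)
    (hOPR : S_OPR) (hOPC : S_OPC) : S_POS := by
  intro φ ψ V d V' d' hV hV' hPV hPV'
  obtain ⟨hL1, C, hL2⟩ := hLEX
  obtain ⟨k1, l1, r, A, dA, γ, hr0, hr1, hLA, -, hPA, hA, hγ, hγ0, hcoA⟩ := hL2 φ
  obtain ⟨k2, l2, s, B, dB, γ', hs0, hs1, hLB, -, hPB, hB, hγ', hγ'0, hcoB⟩ := hL2 ψ
  have eV : V = R k1 * A * R l1 := (hLUN φ V d _ _ hV hLA).2.2 hPV hPA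
  have eV' : V' = R k2 * B * R l2 := (hLUN ψ V' d' _ _ hV' hLB).2.2 hPV' hPB
  have hRR := hOPR.2.2.2.1
  have hRad := hOPR.2.2.2.2.2.1
  have hadA : adjoint A = R kap⁻¹ * (A * R kap⁻¹) := by
    refine adj_eq hL1 hLUN hLMU hOPR hOPC r hr0 hr1 A hA (γ 0) hγ0 ?_
    rw [hcoA 0]; simp
  have key : ∀ x : Circle, ⟪eb 0, A (R x (B (eb 0)))⟫_ℂ =
      ⟪A (eb 0), R (kap * x) (B (eb 0))⟫_ℂ := by
    intro x
    rw [← adjoint_inner_left, hadA]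
    have e1 : (R kap⁻¹ * (A * R kap⁻¹)) (eb 0) = adjoint (R kap) (A (eb 0)) := by
      rw [hRad kap]
      show R kap⁻¹ (A (R kap⁻¹ (eb 0))) = _
      rw [e0_R hOPR]
    rw [e1, adjoint_inner_left, ← hRR]
    rfl
  have hall : ∀ k : Circle, (⟪A (eb 0), R k (B (eb 0))⟫_ℂ).im = 0 ∧
      ⟪A (eb 0), R k (B (eb 0))⟫_ℂ ≠ 0 := by
    intro k
    obtain ⟨x, hx⟩ : ∃ x : Circle, kap * x = k := ⟨kap⁻¹ * k, by group⟩
    rw [← hx, ← key x]
    have hrn : ‖(r : ℂ)‖ < 1 := by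
      rw [Complex.norm_real, Real.norm_of_nonneg hr0]; exact hr1
    have hsn : ‖(s : ℂ)‖ < 1 := by
      rw [Complex.norm_real, Real.norm_of_nonneg hs0]; exact hs1
    let rho : Mob := ⟨1, (r : ℂ), by simp, hrn⟩
    let rho' : Mob := ⟨1, (s : ℂ), by simp, hsn⟩
    let rot : Mob := ⟨((x⁻¹ : Circle) : ℂ), 0, Circle.norm_coe _, by simp⟩
    obtain ⟨d1, hd1⟩ := hA rho rfl rfl
    obtain ⟨d2, hd2⟩ := hB rho' rfl rfl
    have hrot : Lift rot (R x) 0 := by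
      have := hL1 x⁻¹ rot rfl rfl
      rwa [inv_inv] at this
    obtain ⟨χ1, hχ1⟩ := hMG.1 rho rot
    obtain ⟨χ, hχ⟩ := hMG.1 χ1 rho'
    have hl1 := hLMU.1 rho rot χ1 A d1 (R x) 0 hχ1 hd1 hrot
    have hl2 := hLMU.1 χ1 rho' χ (A * R x) _ B d2 hχ hl1 hd2
    obtain ⟨k3, l3, r3, A3, d3, γ3, -, -, hL3, -, -, -, -, hγ30, hco3⟩ := hL2 χ
    have h3 : ⟪eb 0, (R k3 * A3 * R l3) (eb 0)⟫_ℂ = (γ3 0 : ℂ) := by
      show ⟪eb 0, R k3 (A3 (R l3 (eb 0)))⟫_ℂ = _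
      rw [inn_R hOPR hOPC, e0_R hOPR, inn_co hOPC, hco3 0]
      simp
    have h4 : ⟪eb 0, A (R x (B (eb 0)))⟫_ℂ = (γ3 0 : ℂ) ∨
        ⟪eb 0, A (R x (B (eb 0)))⟫_ℂ = -(γ3 0 : ℂ) := by
      rcases (hLUN χ _ _ _ _ hl2 hL3).2.1 with h | h
      · left
        rw [← h3, ← h]
        rfl
      · right
        have h5 : A (R x (B (eb 0))) = -((R k3 * A3 * R l3) (eb 0)) := by
          have h6 := congrArg (fun W : E →L[ℂ] E => W (eb 0)) h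
          exact h6
        rw [h5, inner_neg_right, h3]
    rcases h4 with h4 | h4
    · rw [h4]
      refine ⟨Complex.ofReal_im _, ?_⟩
      exact_mod_cast hγ30.ne'
    · rw [h4]
      refine ⟨by simp, ?_⟩
      rw [neg_ne_zero]
      exact_mod_cast hγ30.ne'
  have hfin := hSGN (A (eb 0)) (B (eb 0)) γ γ' hγ hγ0 hγ' hγ'0 hcoA hcoB hall
    (kap * (l1 * k2))
  show 0 < (⟪eb 0, (V * V') (eb 0)⟫_ℂ).re
  have e2 : ⟪eb 0, (V * V') (eb 0)⟫_ℂ = ⟪A (eb 0), R (kap * (l1 * k2)) (B (eb 0))⟫_ℂ := by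
    rw [eV, eV']
    show ⟪eb 0, R k1 (A (R l1 (R k2 (B (R l2 (eb 0))))))⟫_ℂ = _
    rw [inn_R hOPR hOPC, e0_R hOPR, ← key, ← hRR]
    rfl
  rw [e2]
  exact hfin

end Pool.Agent.W73.WHH
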